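import Pool.Agent.Q161.ESJ.Stm1
import Pool.Agent.Q14.ESG.Inr

/-! # Project ESJ (helper161), job INR: an element of the inertia group over `E` which moves the square root of `D`
(adapted from `Pool/Agent/Q14/ESG/Inr.lean` of helper14) -/

set_option autoImplicit false

namespace Pool.Agent.Q162.ESJ.Inr

open Polynomial Pool.Agent.Q161.ESJ Pool.Agent.Q14.ESG.Inr

section

variable {l : ℕ} [Fact l.Prime]

theorem fixed_mem' (E : IntermediateField ℚ_[l] (PadicAlgCl l)) {x : PadicAlgCl l}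
    (hx : ∀ τ : PadicAlgCl l ≃ₐ[ℚ_[l]] PadicAlgCl l, Ga E τ → τ x = x) : x ∈ E := by
  by_contra hcon
  obtain ⟨τ, hτ1, hτ⟩ := exists_aut E hcon
  exact hτ (hx τ hτ1)

theorem Ga_mul {E : IntermediateField ℚ_[l] (PadicAlgCl l)}
    {σ τ : PadicAlgCl l ≃ₐ[ℚ_[l]] PadicAlgCl l} (hσ : Ga E σ) (hτ : Ga E τ) : Ga E (σ * τ) := by
  intro c hc
  rw [AlgEquiv.mul_apply, hτ c hc, hσ c hc]

theorem Ga_symm {E : IntermediateField ℚ_[l] (PadicAlgCl l)}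
    {σ : PadicAlgCl l ≃ₐ[ℚ_[l]] PadicAlgCl l} (hσ : Ga E σ) : Ga E σ.symm := by
  intro c hc
  rw [AlgEquiv.symm_apply_eq]
  exact (hσ c hc).symm

/-- an automorphism that fixes `E` and `ζ` fixes `E(ζ)` -/
theorem fix_adjoin {E : IntermediateField ℚ_[l] (PadicAlgCl l)} {ζ : PadicAlgCl l}
    {σ : PadicAlgCl l ≃ₐ[ℚ_[l]] PadicAlgCl l} (hσ : Ga E σ) (hζ : σ ζ = ζ) {x : PadicAlgCl l}
    (hx : x ∈ IntermediateField.adjoin ℚ_[l] ((E : Set (PadicAlgCl l)) ∪ {ζ})) : σ x = x := by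
  have h : IntermediateField.adjoin ℚ_[l] ((E : Set (PadicAlgCl l)) ∪ {ζ}) ≤
      IntermediateField.fixedField (Subgroup.zpowers σ) := by
    rw [IntermediateField.adjoin_le_iff]
    rintro y (hy | hy)
    · rintro ⟨τ, hτ⟩
      obtain ⟨k, rfl⟩ := Subgroup.mem_zpowers_iff.1 hτ
      have h1 : σ y = y := hσ y hy
      exact (MulAction.mem_stabilizer_iff.1 (Subgroup.zpow_mem
        (MulAction.stabilizer (PadicAlgCl l ≃ₐ[ℚ_[l]] PadicAlgCl l) y)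
        (MulAction.mem_stabilizer_iff.2 h1) k))
    · rw [Set.mem_singleton_iff] at hy
      subst hy
      rintro ⟨τ, hτ⟩
      obtain ⟨k, rfl⟩ := Subgroup.mem_zpowers_iff.1 hτ
      exact (MulAction.mem_stabilizer_iff.1 (Subgroup.zpow_mem
        (MulAction.stabilizer (PadicAlgCl l ≃ₐ[ℚ_[l]] PadicAlgCl l) y)
        (MulAction.mem_stabilizer_iff.2 hζ) k))
  exact h hx ⟨σ, Subgroup.mem_zpowers σ⟩

/-- the norm of the square root of `D` -/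
theorem norm_sqrt' {E : IntermediateField ℚ_[l] (PadicAlgCl l)}
    (hE : ∀ c ∈ E, c ≠ 0 → ∃ m : ℤ, ‖c‖ = (l : ℝ) ^ m) {D : PadicAlgCl l}
    (hD : ‖D‖ = (l : ℝ) ^ (-1 : ℤ)) {ϖ : PadicAlgCl l} (hϖ : ϖ ^ 2 = D) :
    0 < ‖ϖ‖ ∧ ∀ c ∈ E, ‖c‖ ≤ ‖ϖ‖ → ‖c‖ < ‖ϖ‖ := by
  have hl : l.Prime := Fact.out
  have hl1 : (1 : ℝ) < l := by exact_mod_cast hl.one_lt
  have hl0 : (0 : ℝ) < l := by linarith
  have hn : ‖ϖ‖ ^ 2 = (l : ℝ) ^ (-(1 : ℤ)) := by rw [← norm_pow, hϖ, hD]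
  have hpos : 0 < ‖ϖ‖ := by
    rcases (norm_nonneg ϖ).eq_or_lt with h | h
    · rw [← h] at hn
      have : (0 : ℝ) < (l : ℝ) ^ (-(1 : ℤ)) := zpow_pos hl0 _
      rw [← hn] at this
      norm_num at this
    · exact h
  refine ⟨hpos, fun c hcE hc => lt_of_le_of_ne hc fun heq => ?_⟩
  have hc0 : c ≠ 0 := by
    rintro rfl
    rw [norm_zero] at heq
    exact hpos.ne heq
  obtain ⟨m, h3⟩ := hE c hcE hc0
  rw [← heq, h3, ← zpow_natCast, ← zpow_mul] at hn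
  have h4 := zpow_right_injective₀ hl0 hl1.ne' hn
  push_cast at h4
  omega

/-- the square root of `D` is not in the field of the `M`-th roots of unity -/
theorem not_mem' {E : IntermediateField ℚ_[l] (PadicAlgCl l)}
    (hE : ∀ c ∈ E, c ≠ 0 → ∃ m : ℤ, ‖c‖ = (l : ℝ) ^ m) {D : PadicAlgCl l}
    (hD : ‖D‖ = (l : ℝ) ^ (-1 : ℤ)) {ϖ : PadicAlgCl l} (hϖ : ϖ ^ 2 = D)
    {M : ℕ} (hM : ¬ l ∣ M) {ζ : PadicAlgCl l} (hζ : ζ ^ M = 1) :
    ϖ ∉ IntermediateField.adjoin ℚ_[l] ((E : Set (PadicAlgCl l)) ∪ {ζ}) := by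
  classical
  intro hmem
  obtain ⟨hpos, hgap⟩ := norm_sqrt' hE hD hϖ
  have hM0 : M ≠ 0 := by
    rintro rfl
    exact hM (dvd_zero l)
  -- the conjugates of `ϖ` as a function of those of `ζ`
  obtain ⟨φ, hφ⟩ : ∃ φ : PadicAlgCl l → PadicAlgCl l,
      ∀ τ : PadicAlgCl l ≃ₐ[ℚ_[l]] PadicAlgCl l, Ga E τ → φ (τ ζ) = τ ϖ := by
    refine ⟨fun c => if h : ∃ τ : PadicAlgCl l ≃ₐ[ℚ_[l]] PadicAlgCl l, Ga E τ ∧ τ ζ = c then
      h.choose ϖ else 0, fun τ hτ => ?_⟩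
    have h : ∃ σ : PadicAlgCl l ≃ₐ[ℚ_[l]] PadicAlgCl l, Ga E σ ∧ σ ζ = τ ζ := ⟨τ, hτ, rfl⟩
    simp only [dif_pos h]
    obtain ⟨h1, h2⟩ := h.choose_spec
    have h3 : (τ.symm * h.choose) ϖ = ϖ := by
      refine fix_adjoin (E := E) (ζ := ζ) (Ga_mul (Ga_symm hτ) h1) ?_ hmem
      rw [AlgEquiv.mul_apply, h2, AlgEquiv.symm_apply_apply]
    rw [AlgEquiv.mul_apply, AlgEquiv.symm_apply_eq] at h3
    exact h3
  have hφζ : φ ζ = ϖ := hφ AlgEquiv.refl fun c _ => rfl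
  -- the conjugates of `ζ`
  obtain ⟨S, hS⟩ : ∃ S : Finset (PadicAlgCl l), ∀ c, c ∈ S ↔
      ∃ τ : PadicAlgCl l ≃ₐ[ℚ_[l]] PadicAlgCl l, Ga E τ ∧ τ ζ = c := by
    refine ⟨(nthRootsFinset M (1 : PadicAlgCl l)).filter fun c =>
      ∃ τ : PadicAlgCl l ≃ₐ[ℚ_[l]] PadicAlgCl l, Ga E τ ∧ τ ζ = c, fun c => ?_⟩
    rw [Finset.mem_filter, mem_nthRootsFinset (Nat.pos_of_ne_zero hM0)]
    constructor
    · exact fun h => h.2
    · rintro ⟨τ, hτ, rfl⟩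
      exact ⟨by rw [← map_pow, hζ, map_one], τ, hτ, rfl⟩
  have hφτ : ∀ τ : PadicAlgCl l ≃ₐ[ℚ_[l]] PadicAlgCl l, Ga E τ → ∀ c ∈ S, τ (φ c) = φ (τ c) := by
    intro τ hτ c hc
    obtain ⟨σ, hσ, rfl⟩ := (hS c).1 hc
    rw [hφ σ hσ, ← AlgEquiv.mul_apply, ← AlgEquiv.mul_apply, hφ _ (Ga_mul hτ hσ)]
  have hSM : ∀ c ∈ S, c ^ M = 1 := by
    intro c hc
    obtain ⟨τ, -, rfl⟩ := (hS c).1 hc
    rw [← map_pow, hζ, map_one]
  have hS1 : ∀ c ∈ S, ‖c‖ = 1 := by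
    intro c hc
    have h3 : ‖c‖ ^ M = 1 := by rw [← norm_pow, hSM c hc, norm_one]
    exact (pow_eq_one_iff_of_nonneg (norm_nonneg _) hM0).1 h3
  have hζS : ζ ∈ S := (hS ζ).2 ⟨AlgEquiv.refl, fun c _ => rfl, rfl⟩
  have hSφ : ∀ c ∈ S, ‖φ c‖ = ‖ϖ‖ := by
    intro c hc
    obtain ⟨τ, hτ, rfl⟩ := (hS c).1 hc
    rw [hφ τ hτ, norm_aut]
  -- the sums
  obtain ⟨γ, hγ⟩ : ∃ γ : ℕ → PadicAlgCl l, ∀ i, γ i = ∑ c ∈ S, φ c * c ^ i := ⟨_, fun _ => rfl⟩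
  have hγn : ∀ i, ‖γ i‖ < ‖ϖ‖ := by
    intro i
    have hfix : ∀ τ : PadicAlgCl l ≃ₐ[ℚ_[l]] PadicAlgCl l, Ga E τ → τ (γ i) = γ i := by
      intro τ hτ
      rw [hγ, map_sum]
      refine Finset.sum_bij (fun c _ => τ c) ?_ ?_ ?_ ?_
      · intro c hc
        obtain ⟨σ, hσ, rfl⟩ := (hS c).1 hc
        exact (hS _).2 ⟨τ * σ, Ga_mul hτ hσ, rfl⟩
      · intro c _ d _ h
        exact τ.injective h
      · intro c hc
        obtain ⟨σ, hσ, rfl⟩ := (hS c).1 hc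
        refine ⟨τ.symm (σ ζ), (hS _).2 ⟨τ.symm * σ, Ga_mul (Ga_symm hτ) hσ, rfl⟩,
          τ.apply_symm_apply _⟩
      · intro c hc
        rw [map_mul, map_pow, hφτ τ hτ c hc]
    refine hgap _ (fixed_mem' E hfix) ?_
    rw [hγ]
    refine IsUltrametricDist.norm_sum_le_of_forall_le_of_nonneg hpos.le fun c hc => ?_
    rw [norm_mul, norm_pow, hS1 c hc, one_pow, mul_one, hSφ c hc]
  -- the polynomial
  obtain ⟨Q, hQ⟩ : ∃ Q : (PadicAlgCl l)[X], Q = ∏ c ∈ S.erase ζ, (X - C c) := ⟨_, rfl⟩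
  have hQc : ∀ n, ‖Q.coeff n‖ ≤ 1 := by
    intro n
    rw [hQ]
    exact coeff_prod_le _ (fun c hc => (hS1 c (Finset.mem_of_mem_erase hc)).le) n
  have hQ0 : ∀ c ∈ S, c ≠ ζ → Q.eval c = 0 := by
    intro c hc hne
    rw [hQ, eval_prod]
    refine Finset.prod_eq_zero (Finset.mem_erase.2 ⟨hne, hc⟩) ?_
    simp
  have hQ1 : ‖Q.eval ζ‖ = 1 := by
    rw [hQ, eval_prod, norm_prod]
    refine Finset.prod_eq_one fun c hc => ?_
    rw [Finset.mem_erase] at hc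
    rw [eval_sub, eval_X, eval_C]
    exact roots_dist hM hζ (hSM c hc.2) hc.1.symm
  have hsum : ∑ i ∈ Finset.range (Q.natDegree + 1), Q.coeff i * γ i = ϖ * Q.eval ζ := by
    calc ∑ i ∈ Finset.range (Q.natDegree + 1), Q.coeff i * γ i
        = ∑ c ∈ S, φ c * Q.eval c := by
          simp only [hγ, eval_eq_sum_range, Finset.mul_sum]
          rw [Finset.sum_comm]
          exact Finset.sum_congr rfl fun c _ => Finset.sum_congr rfl fun i _ => by ring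
      _ = φ ζ * Q.eval ζ := by
          refine Finset.sum_eq_single_of_mem ζ hζS fun c hc hne => ?_
          rw [hQ0 c hc hne, mul_zero]
      _ = _ := by rw [hφζ]
  obtain ⟨i, hi, hle⟩ : ∃ i ∈ Finset.range (Q.natDegree + 1),
      ‖∑ i ∈ Finset.range (Q.natDegree + 1), Q.coeff i * γ i‖ ≤ ‖Q.coeff i * γ i‖ := by
    obtain ⟨i, hi, h⟩ := IsUltrametricDist.exists_norm_finsetSum_le_of_nonempty
      (t := Finset.range (Q.natDegree + 1)) Finset.nonempty_range_add_one (fun i => Q.coeff i * γ i)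
    exact ⟨i, hi, h⟩
  rw [hsum, norm_mul, hQ1, mul_one, norm_mul] at hle
  have h3 : ‖Q.coeff i‖ * ‖γ i‖ ≤ ‖γ i‖ := mul_le_of_le_one_left (norm_nonneg _) (hQc i)
  exact absurd (hle.trans h3) (not_le.2 (hγn i))

end

theorem inr : S_INR := by
  classical
  intro l _ hl E hE D hDE hD ϖ hϖ Z hZ
  have hkey : ∃ M : ℕ, ¬ l ∣ M ∧ ∀ z ∈ Z, ∃ η : PadicAlgCl l, (η = 0 ∨ η ^ M = 1) ∧ ‖z - η‖ < 1 := by
    clear hϖ
    induction Z using Finset.induction_on with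
    | empty => exact ⟨1, (Fact.out : l.Prime).one_lt.ne' ∘ Nat.dvd_one.1, fun z hz => absurd hz (Finset.notMem_empty _)⟩
    | insert z Z _ ih =>
      obtain ⟨M, hM, hM2⟩ := ih fun w hw => hZ w (Finset.mem_insert_of_mem hw)
      obtain ⟨η, hη1, hη2⟩ := Pool.Agent.W571.RK.l3 l z (hZ z (Finset.mem_insert_self _ _))
      rcases hη1 with hη1 | ⟨N, hN, hN2⟩
      · refine ⟨M, hM, fun w hw => ?_⟩
        rcases Finset.mem_insert.1 hw with rfl | hw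
        · exact ⟨η, Or.inl hη1, hη2⟩
        · exact hM2 w hw
      · refine ⟨M * N, fun h => ?_, fun w hw => ?_⟩
        · rcases ((Fact.out : l.Prime).dvd_mul).1 h with h | h
          · exact hM h
          · exact hN h
        · rcases Finset.mem_insert.1 hw with rfl | hw
          · exact ⟨η, Or.inr (by rw [mul_comm, pow_mul, hN2, one_pow]), hη2⟩
          · obtain ⟨η', h1, h2⟩ := hM2 w hw
            refine ⟨η', ?_, h2⟩
            rcases h1 with h1 | h1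
            · exact Or.inl h1
            · exact Or.inr (by rw [pow_mul, h1, one_pow])
  obtain ⟨M, hM, hM2⟩ := hkey
  have hM0 : M ≠ 0 := by
    rintro rfl
    exact hM (dvd_zero l)
  have : NeZero M := ⟨hM0⟩
  have : NeZero (M : PadicAlgCl l) := NeZero.charZero
  obtain ⟨ζ, hζ⟩ := HasEnoughRootsOfUnity.exists_primitiveRoot (PadicAlgCl l) M
  obtain ⟨τ, hτ1, hτ2⟩ := exists_aut
    (IntermediateField.adjoin ℚ_[l] ((E : Set (PadicAlgCl l)) ∪ {ζ}))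
    (not_mem' hE hD hϖ hM hζ.pow_eq_one)
  have hτE : Ga E τ := fun c hc => hτ1 c (IntermediateField.subset_adjoin _ _ (Or.inl hc))
  refine ⟨τ, hτE, ?_, ?_⟩
  · have h1 : (τ ϖ) ^ 2 = ϖ ^ 2 := by rw [← map_pow, hϖ, hτE D hDE]
    exact (sq_eq_sq_iff_eq_or_eq_neg.1 h1).resolve_left hτ2
  · intro z hz
    obtain ⟨η, hη1, hη2⟩ := hM2 z hz
    have hτη : τ η = η := by
      rcases hη1 with rfl | hη1
      · exact map_zero τ
      · obtain ⟨i, -, hi⟩ := hζ.eq_pow_of_pow_eq_one hη1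
        rw [← hi]
        refine hτ1 _ (pow_mem ?_ i)
        exact IntermediateField.subset_adjoin _ _ (Or.inr rfl)
    have h1 : τ z - z = τ (z - η) - (z - η) := by
      rw [map_sub, hτη]
      ring
    rw [h1]
    refine (Pool.Agent.W571.RK.norm_sub_le_max' _ _).trans_lt (max_lt ?_ hη2)
    rw [norm_aut]
    exact hη2

end Pool.Agent.Q162.ESJ.Inr
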